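import Mathlib
import Pool.Agent.Lib.MP_14ee70_nt.TY.Defs

/-!
# Project TY, file W/Geo: the two bounds for `Sj`

`U = s M^j`.  Trivial bound `(2U+1)^2 ≤ 9 U^2`.  If `0 < |a| U ≤ 1/2`: the term `v = 0` is `2U + 1 ≤ 3U`, for `v ≠ 0`,
`|v| ≤ U`, the number `a v` has absolute value in `(0, 1/2]`, the geometric sum over `|u| ≤ U` is at most
`2 / |e(a v) - 1| = 1 / |sin (π a v)| ≤ 1 / (2 |a v|)` (`Real.mul_le_sin` : `2/π x ≤ sin x`), and
`∑_{1 ≤ |v| ≤ U} 1 / (2 |a| |v|) = (∑_{v ≤ U} 1/v) / |a| ≤ (1 + log U) / |a|` (`harmonic_le_one_add_log`).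
-/

namespace MP14ee70.TY

open Finset

theorem norm_e (x : ℝ) : ‖e x‖ = 1 := by
  rw [e, Complex.norm_exp_ofReal_mul_I]

theorem e_add (x z : ℝ) : e (x + z) = e x * e z := by
  rw [e, e, e, ← Complex.exp_add]
  congr 1
  push_cast
  ring

/-- `|e x - 1| = 2 |sin (π x)|`. -/
theorem norm_e_sub_one (x : ℝ) : ‖e x - 1‖ = 2 * |Real.sin (Real.pi * x)| := by
  have h := Complex.norm_exp_I_mul_ofReal_sub_one (2 * Real.pi * x)
  have h1 : e x = Complex.exp (Complex.I * ((2 * Real.pi * x : ℝ) : ℂ)) := by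
    rw [e, mul_comm]
  have h2 : 2 * Real.pi * x / 2 = Real.pi * x := by ring
  rw [h1, h, norm_mul, Real.norm_eq_abs, Real.norm_eq_abs, abs_two, h2]

theorem Sj_nonneg (s M j : ℕ) (a : ℝ) : 0 ≤ Sj s M j a :=
  Finset.sum_nonneg fun _ _ => norm_nonneg _

/-- The number of the integers `|u| ≤ U`. -/
theorem geo_card (U : ℕ) : (Finset.Icc (-(U : ℤ)) (U : ℤ)).card = 2 * U + 1 := by
  rw [Int.card_Icc]
  omega

/-- Trivial bound for the inner sum. -/
theorem geo_triv (U : ℕ) (g : ℤ → ℝ) :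
    ‖∑ u ∈ Finset.Icc (-(U : ℤ)) (U : ℤ), e (g u)‖ ≤ 2 * (U : ℝ) + 1 := by
  refine (norm_sum_le _ _).trans ?_
  rw [Finset.sum_congr rfl fun u _ => norm_e (g u), Finset.sum_const, geo_card, nsmul_eq_mul]
  push_cast
  linarith

theorem Sj_le_triv (s M j : ℕ) (hs : 1 ≤ s) (hM : 1 ≤ M) (a : ℝ) :
    Sj s M j a ≤ 9 * (s : ℝ) ^ 2 * (M : ℝ) ^ (2 * j) := by
  have hU : 1 ≤ s * M ^ j := Nat.one_le_iff_ne_zero.2 (by positivity)
  have hU' : (1 : ℝ) ≤ ((s * M ^ j : ℕ) : ℝ) := by exact_mod_cast hU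
  have h1 : Sj s M j a ≤ (2 * ((s * M ^ j : ℕ) : ℝ) + 1) * (2 * ((s * M ^ j : ℕ) : ℝ) + 1) := by
    rw [Sj]
    refine (Finset.sum_le_card_nsmul _ _ (2 * ((s * M ^ j : ℕ) : ℝ) + 1)
      fun (v : ℤ) _ => geo_triv (s * M ^ j) (fun u : ℤ => a * (u : ℝ) * (v : ℝ))).trans ?_
    rw [geo_card, nsmul_eq_mul]
    push_cast
    exact le_refl _
  refine h1.trans ?_
  have h2 : 9 * (s : ℝ) ^ 2 * (M : ℝ) ^ (2 * j)
      = 3 * ((s * M ^ j : ℕ) : ℝ) * (3 * ((s * M ^ j : ℕ) : ℝ)) := by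
    push_cast
    ring
  rw [h2]
  exact mul_self_le_mul_self (by linarith) (by linarith)

/-- Geometric sum. -/
theorem geo_mul (b : ℝ) (N : ℕ) :
    (e b - 1) * ∑ u ∈ Finset.Icc (-(N : ℤ)) (N : ℤ), e (b * u)
      = e (b * ((N : ℝ) + 1)) - e (-(b * (N : ℝ))) := by
  induction N with
  | zero =>
    have h0 : e 0 = 1 := by simp [e]
    simp [h0]
  | succ N ih =>
    rw [Nat.cast_add, Nat.cast_one, Finset.sum_Icc_succ_eq_add_endpoints, mul_add, ih]
    push_cast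
    have h1 : e (b * ((N : ℝ) + 1 + 1)) = e b * e (b * ((N : ℝ) + 1)) := by
      rw [← e_add]
      congr 1
      ring
    have h2 : e (-(b * (N : ℝ))) = e b * e (-(b * ((N : ℝ) + 1))) := by
      rw [← e_add]
      congr 1
      ring
    have h3 : e (b * (-((N : ℝ) + 1))) = e (-(b * ((N : ℝ) + 1))) := by
      congr 1
      ring
    rw [h1, h2, h3]
    ring

/-- Geometric sum, the bound. -/
theorem geo_norm (b : ℝ) (hb : b ≠ 0) (hb' : |b| ≤ 1 / 2) (N : ℕ) :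
    ‖∑ u ∈ Finset.Icc (-(N : ℤ)) (N : ℤ), e (b * u)‖ ≤ 1 / (2 * |b|) := by
  have hb0 : 0 < |b| := abs_pos.2 hb
  have h1 : 4 * |b| ≤ ‖e b - 1‖ := by
    rw [norm_e_sub_one]
    have h2 : |Real.sin (Real.pi * b)| = |Real.sin (Real.pi * |b|)| := by
      rcases abs_choice b with h | h
      · rw [h]
      · rw [h, mul_neg, Real.sin_neg, abs_neg]
    rw [h2]
    have h3 : 2 / Real.pi * (Real.pi * |b|) ≤ Real.sin (Real.pi * |b|) := by
      apply Real.mul_le_sin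
      · exact mul_nonneg Real.pi_pos.le hb0.le
      · have := mul_le_mul_of_nonneg_left hb' Real.pi_pos.le
        linarith
    have h4 : 2 / Real.pi * (Real.pi * |b|) = 2 * |b| := by
      field_simp
    rw [h4] at h3
    have h5 := le_abs_self (Real.sin (Real.pi * |b|))
    linarith
  have h2 : ‖e b - 1‖ * ‖∑ u ∈ Finset.Icc (-(N : ℤ)) (N : ℤ), e (b * u)‖ ≤ 2 := by
    rw [← norm_mul, geo_mul]
    refine (norm_sub_le _ _).trans ?_
    rw [norm_e, norm_e]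
    norm_num
  have h3 : 4 * |b| * ‖∑ u ∈ Finset.Icc (-(N : ℤ)) (N : ℤ), e (b * u)‖ ≤ 2 :=
    (mul_le_mul_of_nonneg_right h1 (norm_nonneg _)).trans h2
  rw [le_div_iff₀ (by linarith)]
  linarith

theorem Sj_le (s M j : ℕ) (hs : 1 ≤ s) (hM : 1 ≤ M) (a : ℝ) (ha : a ≠ 0)
    (h : |a| * ((s : ℝ) * (M : ℝ) ^ j) ≤ 1 / 2) :
    Sj s M j a ≤ 3 * ((s : ℝ) * (M : ℝ) ^ j) + (1 + Real.log ((s : ℝ) * (M : ℝ) ^ j)) / |a| := by
  have ha0 : 0 < |a| := abs_pos.2 ha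
  have hU : 1 ≤ s * M ^ j := Nat.one_le_iff_ne_zero.2 (by positivity)
  have hUc : (s : ℝ) * (M : ℝ) ^ j = ((s * M ^ j : ℕ) : ℝ) := by push_cast; rfl
  rw [hUc] at h ⊢
  rw [Sj]
  generalize s * M ^ j = U at h hU
  have hU' : (1 : ℝ) ≤ (U : ℝ) := by exact_mod_cast hU
  have hv : ∀ v : ℤ, v ≠ 0 → |(v : ℝ)| ≤ U →
      ‖∑ u ∈ Finset.Icc (-(U : ℤ)) (U : ℤ), e (a * u * v)‖ ≤ 1 / (2 * (|a| * |(v : ℝ)|)) := by
    intro v hv0 hvU
    have h1 : (v : ℝ) ≠ 0 := by exact_mod_cast hv0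
    have h2 := geo_norm (a * v) (mul_ne_zero ha h1) (by
      rw [abs_mul]
      exact (mul_le_mul_of_nonneg_left hvU ha0.le).trans h) U
    rw [abs_mul] at h2
    refine le_trans (le_of_eq ?_) h2
    congr 1
    refine Finset.sum_congr rfl fun u _ => ?_
    congr 1
    ring
  have hind : ∀ N : ℕ, N ≤ U → ∑ v ∈ Finset.Icc (-(N : ℤ)) (N : ℤ),
      ‖∑ u ∈ Finset.Icc (-(U : ℤ)) (U : ℤ), e (a * u * v)‖
        ≤ 3 * (U : ℝ) + ((harmonic N : ℚ) : ℝ) / |a| := by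
    intro N
    induction N with
    | zero =>
      intro _
      rw [Nat.cast_zero, neg_zero, Finset.Icc_self, Finset.sum_singleton, harmonic_zero,
        Rat.cast_zero, zero_div, add_zero]
      refine (geo_triv U (fun u => a * u * ((0 : ℤ) : ℝ))).trans ?_
      linarith
    | succ N ih =>
      intro hN
      rw [Nat.cast_add, Nat.cast_one, Finset.sum_Icc_succ_eq_add_endpoints, harmonic_succ]
      have hN1 : (0 : ℝ) < (N : ℝ) + 1 := by positivity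
      have hNU : (N : ℝ) + 1 ≤ U := by exact_mod_cast hN
      have h1 := hv ((N : ℤ) + 1) (by omega) (by
        push_cast
        rw [abs_of_pos hN1]
        exact hNU)
      have h2 := hv (-((N : ℤ) + 1)) (by omega) (by
        push_cast
        rw [abs_neg, abs_of_pos hN1]
        exact hNU)
      have h3 := ih (by omega)
      have h4 : |(((N : ℤ) + 1 : ℤ) : ℝ)| = (N : ℝ) + 1 := by
        push_cast
        exact abs_of_pos hN1
      have h5 : |((-((N : ℤ) + 1) : ℤ) : ℝ)| = (N : ℝ) + 1 := by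
        rw [Int.cast_neg, abs_neg]
        exact h4
      rw [h4] at h1
      rw [h5] at h2
      have h6 : (((harmonic N + (((N + 1 : ℕ) : ℚ))⁻¹ : ℚ)) : ℝ) / |a|
          = ((harmonic N : ℚ) : ℝ) / |a| + 2 * (1 / (2 * (|a| * ((N : ℝ) + 1)))) := by
        push_cast
        field_simp
      rw [h6]
      linarith
  refine (hind U le_rfl).trans ?_
  have h1 : ((harmonic U : ℚ) : ℝ) ≤ 1 + Real.log U := by
    exact_mod_cast harmonic_le_one_add_log U
  have h2 := div_le_div_of_nonneg_right h1 ha0.le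
  linarith

end MP14ee70.TY
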