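import Mathlib
import Pool.Agent.Lib.MP_14ee70_nt.TY.V.Coll

/-!
# Project TY, file W/Bil: the bilinear Hölder argument

`T = Tsum K M α = |∑_{x, z ≤ M} e (∑_j α_j x^j z^j)|`.  Proof.  Put `G(w) = ∑_z e (∑_j α_j w_j z^j)` for an integer
vector `w`, so `T ≤ ∑_x |G(pw x)|` and `T^(2s) ≤ M^(2s-1) ∑_x |G(pw x)|^(2s)`.
Expand: `|G(w)|^(2s) = ∑_p e (∑_j α_j w_j (δ p)_j)`, where `p = (z, z')` runs over the pairs of tuples in the box
`[1, M]^s` and `δ p = ps z' - ps z`.  So `∑_x |G(pw x)|^(2s) ≤ ∑_p |G(δ p)|`, and by the power mean inequality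
`(∑_p |G(δ p)|)^(2s) ≤ M^(2s (2s-1)) ∑_p |G(δ p)|^(2s) ≤ M^(2s (2s-1)) J ∑_u |G(u)|^(2s)`, where `u` runs over the
box `|u_j| ≤ s M^j` (`V.card_diff_le`: every `u` is `δ p` for at most `J` pairs `p`).
Expanding once more: `∑_u |G(u)|^(2s) ≤ ∑_p |∑_u e (∑_j α_j u_j (δ p)_j)| = ∑_p ∏_j |∑_{|u_j| ≤ s M^j} e (α_j u_j (δ p)_j)|
 ≤ J ∏_j Sj s M j (α_j)`.
Together `T^(4 s^2) ≤ M^((2s-1) 2s + 2s (2s-1)) J^2 ∏ S_j = M^(8 s^2 - 4 s) J^2 ∏ S_j`.
-/

namespace MP14ee70.TY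

open Finset

/-- the bilinear phase -/
noncomputable def bilph {K : ℕ} (α : Fin K → ℝ) (u v : Fin K → ℤ) : ℝ :=
  ∑ j, α j * (u j : ℝ) * (v j : ℝ)

theorem bilph_comm {K : ℕ} (α : Fin K → ℝ) (u v : Fin K → ℤ) : bilph α u v = bilph α v u := by
  unfold bilph
  refine Finset.sum_congr rfl fun j _ => ?_
  ring

theorem bilph_sub {K : ℕ} (α : Fin K → ℝ) (u v v' : Fin K → ℤ) :
    bilph α u (v - v') = bilph α u v - bilph α u v' := by
  unfold bilph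
  rw [← Finset.sum_sub_distrib]
  refine Finset.sum_congr rfl fun j _ => ?_
  rw [Pi.sub_apply]
  push_cast
  ring

theorem bilph_sum {K : ℕ} (α : Fin K → ℝ) (u : Fin K → ℤ) {ι : Type*} (S : Finset ι)
    (f : ι → Fin K → ℤ) : bilph α u (∑ i ∈ S, f i) = ∑ i ∈ S, bilph α u (f i) := by
  unfold bilph
  rw [Finset.sum_comm]
  refine Finset.sum_congr rfl fun j _ => ?_
  rw [Finset.sum_apply]
  push_cast
  rw [Finset.mul_sum]

theorem bil_e_sum {ι : Type*} (S : Finset ι) (f : ι → ℝ) :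
    e (∑ i ∈ S, f i) = ∏ i ∈ S, e (f i) := by
  unfold e
  rw [← Complex.exp_sum]
  congr 1
  push_cast
  rw [Finset.mul_sum, Finset.sum_mul]

theorem bil_e_add (x z : ℝ) : e (x + z) = e x * e z := by
  unfold e
  rw [← Complex.exp_add]
  congr 1
  push_cast
  ring

theorem bil_e_conj (x : ℝ) : (starRingEnd ℂ) (e x) = e (-x) := by
  unfold e
  rw [← Complex.exp_conj]
  congr 1
  rw [map_mul, Complex.conj_ofReal, Complex.conj_I]
  push_cast
  ring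

/-- the linear sum with the coefficient vector `w` -/
noncomputable def bilG (K M : ℕ) (α : Fin K → ℝ) (w : Fin K → ℤ) : ℂ :=
  ∑ z ∈ Finset.Icc 1 (M : ℤ), e (bilph α w (V.pw K z))

theorem bilG_pow (K s M : ℕ) (α : Fin K → ℝ) (w : Fin K → ℤ) :
    bilG K M α w ^ s = ∑ z ∈ V.box s (Finset.Icc 1 (M : ℤ)), e (bilph α w (V.ps K z)) := by
  have h1 : bilG K M α w ^ s =
      ∏ _i : Fin s, ∑ z ∈ Finset.Icc 1 (M : ℤ), e (bilph α w (V.pw K z)) := by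
    rw [Finset.prod_const, Finset.card_univ, Fintype.card_fin]
    rfl
  rw [h1, Finset.prod_univ_sum]
  unfold V.box
  refine Finset.sum_congr rfl fun z _ => ?_
  unfold V.ps
  rw [bilph_sum, bil_e_sum]

/-- the pairs of tuples -/
noncomputable def bilD (s M : ℕ) : Finset ((Fin s → ℤ) × (Fin s → ℤ)) :=
  V.box s (Finset.Icc 1 (M : ℤ)) ×ˢ V.box s (Finset.Icc 1 (M : ℤ))

theorem bilG_norm (K s M : ℕ) (α : Fin K → ℝ) (w : Fin K → ℤ) :
    ((‖bilG K M α w‖ ^ (2 * s) : ℝ) : ℂ) =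
      ∑ p ∈ bilD s M, e (bilph α w (V.ps K p.2 - V.ps K p.1)) := by
  have h1 : ((‖bilG K M α w‖ ^ (2 * s) : ℝ) : ℂ) =
      (starRingEnd ℂ) (bilG K M α w ^ s) * bilG K M α w ^ s := by
    rw [Complex.conj_mul', norm_pow, mul_comm 2 s, pow_mul]
    push_cast
    rfl
  rw [h1, bilG_pow, map_sum, Finset.sum_mul_sum, bilD, Finset.sum_product]
  refine Finset.sum_congr rfl fun z _ => Finset.sum_congr rfl fun z' _ => ?_
  rw [bil_e_conj, ← bil_e_add, bilph_sub]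
  congr 1
  ring

/-- expansion of a sum of `2s`-th powers -/
theorem bilG_sum_le (K s M : ℕ) (α : Fin K → ℝ) {ι : Type*} (I : Finset ι) (w : ι → Fin K → ℤ) :
    ∑ i ∈ I, ‖bilG K M α (w i)‖ ^ (2 * s) ≤
      ∑ p ∈ bilD s M, ‖∑ i ∈ I, e (bilph α (w i) (V.ps K p.2 - V.ps K p.1))‖ := by
  have h1 : ((∑ i ∈ I, ‖bilG K M α (w i)‖ ^ (2 * s) : ℝ) : ℂ) =
      ∑ p ∈ bilD s M, ∑ i ∈ I, e (bilph α (w i) (V.ps K p.2 - V.ps K p.1)) := by
    rw [Complex.ofReal_sum, Finset.sum_comm]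
    refine Finset.sum_congr rfl fun i _ => ?_
    exact bilG_norm K s M α (w i)
  have h2 : 0 ≤ ∑ i ∈ I, ‖bilG K M α (w i)‖ ^ (2 * s) :=
    Finset.sum_nonneg fun i _ => pow_nonneg (norm_nonneg _) _
  have h3 : ∑ i ∈ I, ‖bilG K M α (w i)‖ ^ (2 * s) =
      ‖((∑ i ∈ I, ‖bilG K M α (w i)‖ ^ (2 * s) : ℝ) : ℂ)‖ := by
    rw [Complex.norm_real, Real.norm_of_nonneg h2]
  rw [h3, h1]
  exact norm_sum_le _ _

/-- the box of the vectors `u` -/
noncomputable def bilU (K s M : ℕ) : Finset (Fin K → ℤ) :=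
  Fintype.piFinset fun j : Fin K =>
    Finset.Icc (-((s * M ^ (j.val + 1) : ℕ) : ℤ)) ((s * M ^ (j.val + 1) : ℕ) : ℤ)

theorem bil_mem_U {K s M : ℕ} {p : (Fin s → ℤ) × (Fin s → ℤ)} (hp : p ∈ bilD s M) :
    V.ps K p.2 - V.ps K p.1 ∈ bilU K s M := by
  unfold bilD V.box at hp
  rw [Finset.mem_product, Fintype.mem_piFinset, Fintype.mem_piFinset] at hp
  have hz : ∀ z : Fin s → ℤ, (∀ a, z a ∈ Finset.Icc 1 (M : ℤ)) → ∀ j : Fin K,
      0 ≤ V.ps K z j ∧ V.ps K z j ≤ ((s * M ^ (j.val + 1) : ℕ) : ℤ) := by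
    intro z hz j
    have h1 : V.ps K z j = ∑ i, z i ^ (j.val + 1) := by
      unfold V.ps
      rw [Finset.sum_apply]
      rfl
    rw [h1]
    constructor
    · refine Finset.sum_nonneg fun i _ => ?_
      have := (Finset.mem_Icc.1 (hz i)).1
      exact pow_nonneg (by omega) _
    · refine (Finset.sum_le_card_nsmul _ _ ((M : ℤ) ^ (j.val + 1)) fun i _ => ?_).trans ?_
      · have := Finset.mem_Icc.1 (hz i)
        exact pow_le_pow_left₀ (by omega) this.2 _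
      · rw [Finset.card_univ, Fintype.card_fin, nsmul_eq_mul]
        push_cast
        exact le_refl _
  unfold bilU
  rw [Fintype.mem_piFinset]
  intro j
  rw [Finset.mem_Icc, Pi.sub_apply]
  have h1 := hz p.1 hp.1 j
  have h2 := hz p.2 hp.2 j
  constructor <;> linarith [h1.1, h1.2, h2.1, h2.2]

/-- every vector occurs at most `J` times -/
theorem bil_fiber (K s M : ℕ) (F : (Fin K → ℤ) → ℝ) (hF : ∀ u, 0 ≤ F u) :
    ∑ p ∈ bilD s M, F (V.ps K p.2 - V.ps K p.1) ≤ (V.J s K M : ℝ) * ∑ u ∈ bilU K s M, F u := by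
  classical
  rw [← Finset.sum_fiberwise_of_maps_to (s := bilD s M) (t := bilU K s M)
    (g := fun p => V.ps K p.2 - V.ps K p.1) (fun p hp => bil_mem_U hp), Finset.mul_sum]
  refine Finset.sum_le_sum fun u _ => ?_
  have h1 : ∑ p ∈ (bilD s M).filter (fun p => V.ps K p.2 - V.ps K p.1 = u),
      F (V.ps K p.2 - V.ps K p.1) =
      ((bilD s M).filter (fun p => V.ps K p.2 - V.ps K p.1 = u)).card * F u := by
    rw [← nsmul_eq_mul, ← Finset.sum_const]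
    refine Finset.sum_congr rfl fun p hp => ?_
    rw [(Finset.mem_filter.1 hp).2]
  rw [h1]
  refine mul_le_mul_of_nonneg_right ?_ (hF u)
  have h2 := V.card_diff_le (V.box s (Finset.Icc 1 (M : ℤ))) (V.ps K) u
  exact_mod_cast h2

theorem bilD_card (s M : ℕ) : (bilD s M).card = M ^ (2 * s) := by
  unfold bilD V.box
  rw [Finset.card_product, Fintype.card_piFinset, Finset.prod_const, Finset.card_univ,
    Fintype.card_fin, Int.card_Icc, ← pow_add, ← two_mul]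
  congr 1
  omega

/-- power mean inequality -/
theorem bil_pow {ι : Type*} (I : Finset ι) (f : ι → ℝ) (hf : ∀ i, 0 ≤ f i) (n : ℕ) (hn : 1 ≤ n) :
    (∑ i ∈ I, f i) ^ n ≤ (I.card : ℝ) ^ (n - 1) * ∑ i ∈ I, f i ^ n := by
  obtain ⟨m, rfl⟩ : ∃ m, n = m + 1 := ⟨n - 1, by omega⟩
  rw [Nat.add_sub_cancel]
  exact pow_sum_le_card_mul_sum_pow (fun i _ => hf i) m

/-- the bound for the sum of the `2s`-th powers over the box -/
theorem bil_last (K s M : ℕ) (α : Fin K → ℝ) :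
    ∑ u ∈ bilU K s M, ‖bilG K M α u‖ ^ (2 * s) ≤
      (V.J s K M : ℝ) * ∏ j : Fin K, Sj s M (j.val + 1) (α j) := by
  classical
  refine (bilG_sum_le K s M α (bilU K s M) id).trans ?_
  have h1 : ∀ v : Fin K → ℤ, ‖∑ u ∈ bilU K s M, e (bilph α (id u) v)‖ =
      ∏ j : Fin K, ‖∑ u ∈ Finset.Icc (-((s * M ^ (j.val + 1) : ℕ) : ℤ))
        ((s * M ^ (j.val + 1) : ℕ) : ℤ), e (α j * u * v j)‖ := by
    intro v
    rw [← norm_prod, Finset.prod_univ_sum]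
    congr 1
    unfold bilU
    refine Finset.sum_congr rfl fun u _ => ?_
    unfold bilph
    rw [bil_e_sum]
    rfl
  refine (le_of_eq (Finset.sum_congr rfl fun p _ => h1 _)).trans ?_
  refine (bil_fiber K s M (fun v => ∏ j : Fin K,
    ‖∑ u ∈ Finset.Icc (-((s * M ^ (j.val + 1) : ℕ) : ℤ))
        ((s * M ^ (j.val + 1) : ℕ) : ℤ), e (α j * u * v j)‖)
    (fun v => Finset.prod_nonneg fun j _ => norm_nonneg _)).trans (le_of_eq ?_)
  congr 1
  unfold Sj bilU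
  rw [Finset.prod_univ_sum]

theorem bil_Tsum_eq (K M : ℕ) (α : Fin K → ℝ) :
    Tsum K M α = ‖∑ x ∈ Finset.Icc 1 (M : ℤ), bilG K M α (V.pw K x)‖ := by
  unfold Tsum bilG
  congr 1
  have hm : Finset.Icc 1 (M : ℤ) = (Finset.Icc 1 M).map Nat.castEmbedding := by
    ext x
    rw [Finset.mem_map, Finset.mem_Icc]
    constructor
    · rintro ⟨h1, h2⟩
      refine ⟨x.toNat, Finset.mem_Icc.2 ⟨by omega, by omega⟩, ?_⟩
      show ((x.toNat : ℕ) : ℤ) = x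
      omega
    · rintro ⟨y, hy, rfl⟩
      have := Finset.mem_Icc.1 hy
      show 1 ≤ ((y : ℕ) : ℤ) ∧ ((y : ℕ) : ℤ) ≤ M
      omega
  rw [hm, Finset.sum_map]
  refine Finset.sum_congr rfl fun x _ => ?_
  rw [Finset.sum_map]
  refine Finset.sum_congr rfl fun z _ => ?_
  congr 1
  unfold bilph V.pw
  refine Finset.sum_congr rfl fun j _ => ?_
  rw [mul_pow]
  simp only [Nat.castEmbedding_apply]
  push_cast
  ring

theorem bil (K s M : ℕ) (hs : 1 ≤ s) (hM : 1 ≤ M) (α : Fin K → ℝ) :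
    Tsum K M α ^ (4 * s ^ 2) ≤
      (M : ℝ) ^ (8 * s ^ 2 - 4 * s) * (V.J s K M : ℝ) ^ 2 * ∏ j : Fin K, Sj s M (j.val + 1) (α j) := by
  have hT0 : 0 ≤ Tsum K M α := norm_nonneg _
  have hM0 : (0 : ℝ) ≤ M := Nat.cast_nonneg M
  have h1 : Tsum K M α ^ (2 * s) ≤ (M : ℝ) ^ (2 * s - 1) *
      ∑ x ∈ Finset.Icc 1 (M : ℤ), ‖bilG K M α (V.pw K x)‖ ^ (2 * s) := by
    rw [bil_Tsum_eq]
    refine (pow_le_pow_left₀ (norm_nonneg _) (norm_sum_le _ _) _).trans ?_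
    have h := bil_pow (Finset.Icc 1 (M : ℤ)) (fun x => ‖bilG K M α (V.pw K x)‖)
      (fun _ => norm_nonneg _) (2 * s) (by omega)
    have hc : (Finset.Icc 1 (M : ℤ)).card = M := by
      rw [Int.card_Icc]
      omega
    rw [hc] at h
    exact h
  have h2 : ∑ x ∈ Finset.Icc 1 (M : ℤ), ‖bilG K M α (V.pw K x)‖ ^ (2 * s) ≤
      ∑ p ∈ bilD s M, ‖bilG K M α (V.ps K p.2 - V.ps K p.1)‖ := by
    refine (bilG_sum_le K s M α (Finset.Icc 1 (M : ℤ)) (V.pw K)).trans (le_of_eq ?_)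
    refine Finset.sum_congr rfl fun p _ => ?_
    unfold bilG
    congr 1
    refine Finset.sum_congr rfl fun x _ => ?_
    rw [bilph_comm]
  have h3 : (∑ p ∈ bilD s M, ‖bilG K M α (V.ps K p.2 - V.ps K p.1)‖) ^ (2 * s) ≤
      ((M : ℝ) ^ (2 * s)) ^ (2 * s - 1) * ((V.J s K M : ℝ) *
        ((V.J s K M : ℝ) * ∏ j : Fin K, Sj s M (j.val + 1) (α j))) := by
    have h := bil_pow (bilD s M) (fun p => ‖bilG K M α (V.ps K p.2 - V.ps K p.1)‖)
      (fun _ => norm_nonneg _) (2 * s) (by omega)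
    rw [bilD_card] at h
    push_cast at h
    refine h.trans (mul_le_mul_of_nonneg_left ?_ (by positivity))
    refine (bil_fiber K s M (fun u => ‖bilG K M α u‖ ^ (2 * s))
      (fun u => pow_nonneg (norm_nonneg _) _)).trans ?_
    exact mul_le_mul_of_nonneg_left (bil_last K s M α) (Nat.cast_nonneg _)
  have h4 : Tsum K M α ^ (4 * s ^ 2) = (Tsum K M α ^ (2 * s)) ^ (2 * s) := by
    rw [← pow_mul]
    congr 1
    ring
  rw [h4]
  have h5 : Tsum K M α ^ (2 * s) ≤ (M : ℝ) ^ (2 * s - 1) *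
      ∑ p ∈ bilD s M, ‖bilG K M α (V.ps K p.2 - V.ps K p.1)‖ :=
    h1.trans (mul_le_mul_of_nonneg_left h2 (by positivity))
  refine (pow_le_pow_left₀ (pow_nonneg hT0 _) h5 _).trans ?_
  rw [mul_pow]
  refine (mul_le_mul_of_nonneg_left h3 (by positivity)).trans (le_of_eq ?_)
  rw [← pow_mul, ← pow_mul]
  have h6 : (M : ℝ) ^ (8 * s ^ 2 - 4 * s) =
      (M : ℝ) ^ ((2 * s - 1) * (2 * s)) * (M : ℝ) ^ (2 * s * (2 * s - 1)) := by
    rw [← pow_add]
    congr 1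
    obtain ⟨t, rfl⟩ : ∃ t, s = t + 1 := ⟨s - 1, by omega⟩
    have e1 : 2 * (t + 1) - 1 = 2 * t + 1 := by omega
    rw [e1]
    have e2 : 8 * (t + 1) ^ 2 = ((2 * t + 1) * (2 * (t + 1)) + 2 * (t + 1) * (2 * t + 1)) +
      4 * (t + 1) := by ring
    rw [e2, Nat.add_sub_cancel]
  rw [h6]
  ring

end MP14ee70.TY
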